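import Pool.Agent.H84.BlumMain

/-!
# Mutually non-helping oracles for every recursive set

The definitions (`OraclePartrec`, `RelBlumMeasure`, `charFn`, `Computes`, `CompIo`, `CompAe`) are in
`Pool/Agent/H84/BlumDefs.lean`.
-/

namespace Pool.Agent.Results.MP_f7ced4_lc.NonHelping

open Pool.Agent.H84.Blum

/-- For every relative Blum measure `M` there is a recursive `g` such that for every recursive set
`A` there is an arbitrarily complex recursive set `B` (for every recursive `s` one with
`Φ-Comp(B) >_ae s`) which satisfies both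

(i) for every recursive `t`, `Φ-Comp(A) >_io g □ t` implies `Φ^B-Comp(A) >_io t`, and

(ii) for every recursive `t`, `Φ-Comp(B) >_io t` implies `Φ^A-Comp(B) >_io t`. -/
theorem result (M : RelBlumMeasure) :
    ∃ g : ℕ → ℕ → ℕ, Computable₂ g ∧
      ∀ A : Set ℕ, (ComputablePred fun n => n ∈ A) →
        ∀ s : ℕ → ℕ, Computable s →
          ∃ B : Set ℕ, (ComputablePred fun n => n ∈ B) ∧ M.CompAe ∅ B s ∧
            (∀ t : ℕ → ℕ, Computable t →
              M.CompIo ∅ A (fun x => g x (t x)) → M.CompIo B A t) ∧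
            (∀ t : ℕ → ℕ, Computable t → M.CompIo ∅ B t → M.CompIo A B t) := by
  obtain ⟨g, hg, h⟩ := main M
  refine ⟨g, hg, fun A hA s hs => ?_⟩
  obtain ⟨B, h1, h2, h3, h4⟩ := h A hA s hs
  exact ⟨B, h1, h2, fun t _ => h3 t, fun t _ => h4 t⟩

end Pool.Agent.Results.MP_f7ced4_lc.NonHelping
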